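import Mathlib
import Pool.Agent.R274.SPMain

/-!
The space `c_0` is almost square, but its 2-fold symmetric projective tensor product is not.

Idea: were it almost square, there would be a norm one tensor `v` with `‖e_i ⊗ e_i ± v‖ ≤ 1 + ε`
for `i < n`. Any quadratic form `φ` of norm one on `c_0` is, by Grothendieck's inequality (proved
here from scratch with a bad constant, for finite matrices), a difference of two positive forms
`Q` with bound `K` on the unit ball and with `∑ Q(e_i) ≤ K`. Testing with `e_i*²` and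
`e_i*² - Q / K` gives `|Q(v)| ≤ 2 K ε + Q(e_i)`, hence `φ(v)` is small, whereas `φ(v) = 1` for some
`φ`.
-/

namespace Pool.Agent.Results.MP_b5276a_an.SquareOfC0NotASQ

open scoped ZeroAtInfty

theorem result : CompleteSpace C₀(ℕ, ℝ) ∧ Pool.Agent.R274.SP.ASQ C₀(ℕ, ℝ) ∧
    ¬ Pool.Agent.R274.SP.ASQ (UniformSpace.Completion (Pool.Agent.R274.SP.SymProj 2 C₀(ℕ, ℝ))) :=
  ⟨inferInstance, Pool.Agent.R274.SP.asq_c0, Pool.Agent.R274.SP.not_asq⟩

end Pool.Agent.Results.MP_b5276a_an.SquareOfC0NotASQ
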